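import Pool.Agent.H8.UG.TargetsF
import Pool.Agent.H67.UB.UNB
import Pool.Agent.H49.UB.LSF

/-!
# MP_404602_al, row UNC: uniform bound over function fields
-/

set_option autoImplicit false

open CategoryTheory Cardinal Ordinal

namespace Pool.Agent.H30.UG

open Pool.Agent.H8.UG Pool.Agent.H8.UB Pool.Agent.H56.UDs

/-- The trivial ring. -/
theorem trivial_ring (hMOC : T_MOC) (hMOU : T_MOU) (S : Type) [Ring S] [Subsingleton S] :
    UDl S = ((0 : Ordinal.{0}) : WithTop Ordinal.{0}) := by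
  obtain ⟨hcoh, hfp, -⟩ := hMOC S
  have := hcoh
  have : Fact (IsFP (UF S)) := ⟨hfp⟩
  rw [hMOU S]
  have h1 : (⊥ : LL (UF S)) = ⊤ := by
    refine le_antisymm bot_le ?_
    show (⊤ : Sub (UF S)) ≤ ⊥
    intro M x _
    have h2 : Subsingleton M := Module.subsingleton S M
    have h3 : (show M from x) = 0 := Subsingleton.elim _ _
    exact Sub.mem_bot.mpr h3
  have h2 : St (0 + 1 : Ordinal.{0}) (⊥ : LL (UF S)) ⊤ := by
    rw [← h1, St]
  have h3 : ∃ α : Ordinal.{0}, St (α + 1) (⊥ : LL (UF S)) ⊤ := ⟨0, h2⟩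
  unfold rk
  rw [if_pos h3]
  congr 1
  exact le_antisymm (csInf_le' h2) (zero_le)

theorem pf_UNC (hLSG : T_LSG) (hFGC : G_FGC) (hFGZ : G_FGZ) (hRIG : T_RIG) (hMOC : T_MOC)
    (hMOU : T_MOU) : G_UNC := by
  classical
  obtain ⟨I, hI, F, hF, hFc, hiso⟩ := hFGZ
  have : ∀ i (n : ℕ), Countable (@SC n (F i) (hF i)) := fun i n =>
    @Pool.Agent.H67.UB.sc_countable n (F i) (hF i) (hFc i)
  let J : Type := Σ i : I, Σ n : ℕ, @SC n (F i) (hF i)
  have : Countable J := inferInstanceAs (Countable (Σ i : I, Σ n : ℕ, @SC n (F i) (hF i)))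
  let o : J → Ordinal.{0} := fun j =>
    if h : ∃ α : Ordinal.{0}, α.card ≤ ℵ₀ ∧
        @UDl (@Al j.2.1 (F j.1) (hF j.1) j.2.2)
          (@Pool.Agent.H8.UB.instRingAl j.2.1 (F j.1) (hF j.1) j.2.2) = α
      then Order.succ h.choose else 0
  have ho : ∀ j, o j < ω₁ := by
    intro j
    by_cases h : ∃ α : Ordinal.{0}, α.card ≤ ℵ₀ ∧
        @UDl (@Al j.2.1 (F j.1) (hF j.1) j.2.2)
          (@Pool.Agent.H8.UB.instRingAl j.2.1 (F j.1) (hF j.1) j.2.2) = α
    · have e1 : o j = Order.succ h.choose := dif_pos h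
      rw [e1, ← ord_aleph]
      exact (isSuccLimit_ord (aleph0_le_aleph 1)).succ_lt
        (by rw [ord_aleph]; exact (Pool.Agent.H67.UB.card_iff _).1 h.choose_spec.1)
    · have e1 : o j = 0 := dif_neg h
      rw [e1]
      exact Ordinal.omega_pos 1
  have hb : BddAbove (Set.range o) := by
    refine ⟨ω₁, ?_⟩
    rintro _ ⟨j, rfl⟩
    exact (ho j).le
  set β : Ordinal.{0} := max (⨆ j, o j) 1 with hβ
  have hβc : β.card ≤ ℵ₀ := by
    refine (Pool.Agent.H67.UB.card_iff _).2 (max_lt (Ordinal.iSup_lt_omega_one ho) ?_)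
    exact (one_lt_omega0).trans_le (omega0_le_omega 1)
  refine ⟨β, hβc, ?_⟩
  intro K k _ _ _ _ hfg n s
  rcases Nat.eq_zero_or_pos n with rfl | hn
  · right
    have h1 : Subsingleton (Al s) := ⟨fun x y => al_ext s fun l => l.elim0⟩
    exact ⟨0, lt_of_lt_of_le zero_lt_one (le_max_right _ _), trivial_ring hMOC hMOU (Al s)⟩
  · obtain ⟨hcoh, hfp, -⟩ := hMOC (Al s)
    have := hcoh
    have : Fact (IsFP (UF (Al s))) := ⟨hfp⟩
    by_cases htop : UDl (Al s) = ⊤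
    · exact Or.inl htop
    · right
      obtain ⟨r, hr⟩ := WithTop.ne_top_iff_exists.mp htop
      refine ⟨r, ?_, hr.symm⟩
      by_contra hlt
      have hle : β ≤ r := not_lt.mp hlt
      have hrk : rk.{0} (LL (UF (Al s))) = r := by
        rw [← hMOU (Al s), ← hr]
      obtain ⟨Φ, hΦ, hG⟩ := hFGC K k hfg n s hn
      obtain ⟨S₀, hc, hcl, hL⟩ := hLSG (Al s) r hrk (Set.Iio β) (by
        rw [← Cardinal.le_aleph0_iff_set_countable, Cardinal.mk_Iio_ordinal]
        rw [← Cardinal.lift_aleph0.{1, 0}, Cardinal.lift_le]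
        exact hβc) (fun ξ hξ => lt_of_lt_of_le hξ hle) Φ hΦ
      obtain ⟨K₀, k₀, i1, i2, i3, i4, i5, hfg0, s₀, ⟨e⟩⟩ := hG S₀ hc hcl
      have hN : IsNoetherianRing S₀ := isNoetherianRing_of_ringEquiv (Al s₀) e.symm
      obtain ⟨ρ', h1, hρc, -, h3⟩ := hL hN
      have h4 : β ≤ ρ' := h3 β hle fun δ hδ => hδ
      obtain ⟨i, ⟨e'⟩⟩ := @hiso K₀ k₀ i1 i2 i3 i4 i5 hfg0
      let _ := hF i
      have h5 : UDl (Al (s₀.map (e' : k₀ →+* F i))) = ρ' := by
        rw [← hRIG _ _ (Pool.Agent.H67.UB.alEquiv e' s₀), ← hRIG S₀ (Al s₀) e]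
        exact h1
      have h6 : ∃ α : Ordinal.{0}, α.card ≤ ℵ₀ ∧
          UDl (Al (s₀.map (e' : k₀ →+* F i))) = α := ⟨ρ', hρc, h5⟩
      have e1 : o ⟨i, n, s₀.map (e' : k₀ →+* F i)⟩ = Order.succ h6.choose := dif_pos h6
      have h7 : h6.choose = ρ' := by
        have h8 := h5.symm.trans h6.choose_spec.2
        exact (WithTop.coe_injective h8).symm
      rw [h7] at e1
      have h9 : ρ' < β := calc
        ρ' < Order.succ ρ' := Order.lt_succ ρ'
        _ = o ⟨i, n, s₀.map (e' : k₀ →+* F i)⟩ := e1.symm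
        _ ≤ ⨆ j, o j := le_ciSup hb _
        _ ≤ β := le_max_left _ _
      exact absurd h4 (not_le.mpr h9)

end Pool.Agent.H30.UG
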